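import Pool.Agent.helper94.PL.Spec

set_option autoImplicit false

open Complex Metric Set Filter Topology MeasureTheory MPS
open Pool.Agent.helper16.Multibrot

noncomputable section

namespace PLY

theorem BRO (hBNZ : BNZ_stmt) : BRO_stmt := by
  intro n c E hn hc hE ζ hζ v hv
  obtain ⟨hE0, -⟩ := hBNZ n c E hn hc hE
  have hn0 : n ≠ 0 := by omega
  have hζ1 : ‖ζ‖ = 1 := Complex.norm_eq_one_of_pow_eq_one hζ hn0
  have hmem : ∀ w ∈ ball (0 : ℂ) 1, ζ * w ∈ ball (0 : ℂ) 1 := by
    intro w hw
    rw [mem_ball_zero_iff] at hw ⊢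
    rw [norm_mul, hζ1, one_mul]
    exact hw
  have hd : DifferentiableOn ℂ (fun w => E (ζ * w) / E w) (ball (0 : ℂ) 1) := by
    refine DifferentiableOn.div ?_ hE.hol hE0
    exact hE.hol.comp ((differentiable_id.const_mul ζ).differentiableOn) hmem
  have hpow : ∀ w ∈ ball (0 : ℂ) 1, (E (ζ * w) / E w) ^ n = 1 := by
    intro w hw
    have h1 : E (ζ * w) ^ n = E w ^ n := by
      rw [hE.fe w hw, hE.fe (ζ * w) (hmem w hw), mul_pow, hζ, one_mul]
    rw [div_pow, h1, div_self (pow_ne_zero n (hE0 w hw))]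
  have hder : (ball (0 : ℂ) 1).EqOn (deriv (fun w => E (ζ * w) / E w)) 0 := by
    intro w hw
    have hdw : DifferentiableAt ℂ (fun w => E (ζ * w) / E w) w :=
      hd.differentiableAt (isOpen_ball.mem_nhds hw)
    have h1 := hdw.hasDerivAt.pow n
    have h2 : HasDerivAt (fun w => (E (ζ * w) / E w) ^ n) 0 w := by
      refine (hasDerivAt_const w (1 : ℂ)).congr_of_eventuallyEq ?_
      filter_upwards [isOpen_ball.mem_nhds hw] with x hx
      exact hpow x hx
    have h3 := h1.unique h2
    have h4 : (E (ζ * w) / E w) ≠ 0 := by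
      intro h0
      have := hpow w hw
      rw [h0, zero_pow hn0] at this
      exact zero_ne_one this
    rcases mul_eq_zero.1 h3 with h5 | h5
    · rcases mul_eq_zero.1 h5 with h6 | h6
      · exact absurd (Nat.cast_eq_zero.1 h6) hn0
      · exact absurd h6 (pow_ne_zero _ h4)
    · exact h5
  have h0 : (0 : ℂ) ∈ ball (0 : ℂ) 1 := mem_ball_self one_pos
  have hconst := isOpen_ball.is_const_of_deriv_eq_zero (convex_ball (0 : ℂ) 1).isPreconnected hd
    hder hv h0
  simp only [mul_zero, hE.one, div_one] at hconst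
  rw [div_eq_one_iff_eq (hE0 v hv)] at hconst
  exact hconst

end PLY
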